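import Pool.Agent.Y329.CG.Stm

set_option autoImplicit false

open Set Filter Topology MeasureTheory

namespace Pool.Agent.Y329.CG

theorem Pair0.lo_eq {s : Fin 2 → Equiv.Perm ℝ} (h : Pair0 s) (i : Fin 2) : s i (lo i) = lo i :=
  h.out i _ (by simp)

theorem Pair0.hi_eq {s : Fin 2 → Equiv.Perm ℝ} (h : Pair0 s) (i : Fin 2) : s i (hi i) = hi i :=
  h.out i _ (by simp)

theorem Pair0.lo_lt {s : Fin 2 → Equiv.Perm ℝ} (h : Pair0 s) (i : Fin 2) (x : ℝ) : lo i < s i x ↔ lo i < x := by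
  conv_lhs => rw [← h.lo_eq i]
  exact (h.mono i).lt_iff_lt

theorem Pair0.lo_le {s : Fin 2 → Equiv.Perm ℝ} (h : Pair0 s) (i : Fin 2) (x : ℝ) : lo i ≤ s i x ↔ lo i ≤ x := by
  conv_lhs => rw [← h.lo_eq i]
  exact (h.mono i).le_iff_le

theorem Pair0.lt_hi {s : Fin 2 → Equiv.Perm ℝ} (h : Pair0 s) (i : Fin 2) (x : ℝ) : s i x < hi i ↔ x < hi i := by
  conv_lhs => rw [← h.hi_eq i]
  exact (h.mono i).lt_iff_lt

theorem Pair0.le_hi {s : Fin 2 → Equiv.Perm ℝ} (h : Pair0 s) (i : Fin 2) (x : ℝ) : s i x ≤ hi i ↔ x ≤ hi i := by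
  conv_lhs => rw [← h.hi_eq i]
  exact (h.mono i).le_iff_le

theorem ok_proof : S_OK := by
  intro s h
  refine ⟨⟨?_, ?_⟩, ⟨?_, ?_⟩, ⟨?_, ?_⟩⟩
  · intro i x
    rw [Dp, mem_Ico, mem_Ico, h.lo_le, h.lt_hi]
  · intro i x hx
    by_cases h0 : x ∈ Ioo (lo i) (hi i)
    · exact absurd ⟨h0.1.le, h0.2⟩ hx
    · exact h.out i x h0
  · intro i x
    rw [Dm, mem_Ioc, mem_Ioc, h.lo_lt, h.le_hi]
  · intro i x hx
    by_cases h0 : x ∈ Ioo (lo i) (hi i)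
    · exact absurd ⟨h0.1, h0.2.le⟩ hx
    · exact h.out i x h0
  · intro i x
    rw [Do, mem_Ioo, mem_Ioo, h.lo_lt, h.lt_hi]
  · intro i x hx
    exact h.out i x hx

end Pool.Agent.Y329.CG
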