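import Pool.Agent.Y329.CG.Asm
import Pool.Agent.Y151.CG.UC
import Pool.Agent.Y168.CG.Fg
import Pool.Agent.Y50.CG.FA
import Pool.Agent.Y658.CG.Int
import Pool.Agent.Y286.CG.NA
import Pool.Agent.Y240.CG.MD
import Pool.Agent.Y490.CG.RC
import Pool.Agent.Y401.CG.AN
import Pool.Agent.Y429.CG.F
import Pool.Agent.Y407.CG.MV
import Pool.Agent.Y547.CG.Nf
import Pool.Agent.Y908.CG.GT

set_option autoImplicit false

open Set Filter Topology MeasureTheory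

namespace Pool.Agent.Y329.CG

theorem final (hSM : S_SM) (hGEN : S_GEN) :
    ∃ H : Subgroup (Equiv.Perm ℝ),
      (∀ g ∈ H, StrictMono ⇑g ∧ ContDiff ℝ 2 ⇑g ∧ ContDiff ℝ 2 ⇑(g.symm)) ∧
      (¬ ∃ m : Set ↥H → ℝ,
          (∀ A : Set ↥H, 0 ≤ m A) ∧
          m Set.univ = 1 ∧
          (∀ A B : Set ↥H, Disjoint A B → m (A ∪ B) = m A + m B) ∧
          (∀ (g : ↥H) (A : Set ↥H), m ((fun x => g * x) ⁻¹' A) = m A)) ∧
      (¬ ∃ f : FreeGroup (Fin 2) →* ↥H, Function.Injective f) :=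
  main_of (ex_of hSM hGEN Pool.Agent.Y908.CG.GT.done)
    (doneB Pool.Agent.Y151.CG.done ok_proof doneRC)
    (Pool.Agent.Y429.CG.F.done ok_proof doneRC Pool.Agent.Y401.CG.AN.done
      Pool.Agent.Y151.CG.done Pool.Agent.Y168.CG.doneCG)
    Pool.Agent.Y240.CG.done
    (Pool.Agent.Y286.CG.done Pool.Agent.Y658.CG.done Pool.Agent.Y50.CG.fa)
    (Pool.Agent.Y547.CG.done Pool.Agent.Y168.CG.doneFG Pool.Agent.Y407.CG.done)

end Pool.Agent.Y329.CG
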