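import Pool.Agent.Y329.CG.Bas

/-!
Project CG (MP_be1663_al, frozen statement S02919): a nonamenable group of C^2 (indeed smooth)
diffeomorphisms of the line without free subgroups.  Statements of the pieces.
-/

set_option autoImplicit false

open Set Filter Topology MeasureTheory

namespace Pool.Agent.Y329.CG

/-! ## Abstract pieces -/

open Classical in
/-- number of active edges of the finite set `A` is at most its number of points -/
def Gen {X : Type} (s : Fin 2 → Equiv.Perm X) (D : Fin 2 → Set X) : Prop :=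
  ∀ A : Finset X, (A.filter fun x => x ∈ D 0 ∧ s 0 x ∈ A).card +
    (A.filter fun x => x ∈ D 1 ∧ s 1 x ∈ A).card ≤ A.card

/-- labels of closed walks commute when every finite subgraph has at most as many edges as vertices -/
def S_UC : Prop := ∀ (X : Type) (s : Fin 2 → Equiv.Perm X) (D : Fin 2 → Set X), Ok s D → Gen s D →
  ∀ (y : X) (W W' : F2), rho s W y = y → rho s W' y = y →
    coc s D W y * coc s D W' y = coc s D W' y * coc s D W y

/-- in a free group an element commuting with its conjugate is equal to it -/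
def S_FG : Prop := ∀ w u : F2, w ≠ 1 → w * (u * w * u⁻¹) = (u * w * u⁻¹) * w → u * w * u⁻¹ = w

/-- centralizer of a generator -/
def S_CG : Prop := ∀ w : F2, w * FreeGroup.of 1 = FreeGroup.of 1 * w → ∃ m : ℤ, w = FreeGroup.of 1 ^ m

/-- bounded functions -/
def Bd {G : Type} (f : G → ℝ) : Prop := ∃ C : ℝ, ∀ x, |f x| ≤ C

/-- integral with respect to a finitely additive probability measure -/
def S_INT : Prop := ∀ (G : Type) (m : Set G → ℝ), (∀ A, 0 ≤ m A) → m univ = 1 →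
  (∀ A B, Disjoint A B → m (A ∪ B) = m A + m B) →
  ∃ Λ : (G → ℝ) → ℝ,
    (∀ f g, Bd f → Bd g → Λ (fun x => f x + g x) = Λ f + Λ g) ∧
    (∀ f g, Bd f → Bd g → (∀ x, f x ≤ g x) → Λ f ≤ Λ g) ∧
    (∀ c : ℝ, Λ (fun _ => c) = c) ∧
    (∀ σ : G → G, (∀ A, m (σ ⁻¹' A) = m A) → ∀ f, Bd f → Λ (fun x => f (σ x)) = Λ f)

/-- there is no almost right-invariant finitely additive probability measure on the free group -/
def S_FA : Prop := ¬ ∃ μ : Set F2 → ℝ, (∀ A, 0 ≤ μ A) ∧ μ univ = 1 ∧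
  (∀ A B, Disjoint A B → μ (A ∪ B) = μ A + μ B) ∧
  (∀ (i : Fin 2) (A : Set F2), |μ {x | x * (FreeGroup.of i)⁻¹ ∈ A} - μ A| ≤ 1 / 20)

/-- nonamenability criterion -/
def S_NA : Prop := ∀ (H : Type) [Group H] (act : H →* Equiv.Perm ℝ) (c : H → ℝ → F2) (h : Fin 2 → H),
  (∀ g g' x, c (g * g') x = c g (act g' x) * c g' x) →
  (∀ g v, MeasurableSet {x | c g x = v}) →
  (∀ i x, x ∈ Ico (1:ℝ) 2 → c (h i) x = FreeGroup.of i) →
  (∀ i (B : Set ℝ), MeasurableSet B → MeasurableSet (act (h i) '' B)) →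
  (∀ i (B : Set ℝ), MeasurableSet B → B ⊆ Ico (1:ℝ) 2 →
    |volume.real (act (h i) '' B) - volume.real B| ≤ 1 / 50) →
  (∀ i, volume.real (symmDiff (act (h i) '' Ico (1:ℝ) 2) (Ico (1:ℝ) 2)) ≤ 1 / 50) →
  ¬ ∃ m : Set H → ℝ, (∀ A, 0 ≤ m A) ∧ m univ = 1 ∧
    (∀ A B, Disjoint A B → m (A ∪ B) = m A + m B) ∧ (∀ g A, m ((fun x => g * x) ⁻¹' A) = m A)

/-- moving a compact set off itself -/
def S_MV : Prop := ∀ G : Subgroup (Equiv.Perm ℝ), (∀ g ∈ G, StrictMono g) → ∀ l r : ℝ,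
  (∀ g ∈ G, g l = l) → (∀ g ∈ G, g r = r) → (∀ x ∈ Ioo l r, ∃ g ∈ G, g x ≠ x) →
  ∀ K : Set ℝ, IsCompact K → K ⊆ Ioo l r → ∃ u ∈ G, Disjoint (u '' K) K

/-- no free subgroup criterion -/
def S_NF : Prop := ∀ G : Subgroup (Equiv.Perm ℝ), (∀ g ∈ G, StrictMono g) →
  (∀ g ∈ G, ∀ x, x ∉ Ioo (0:ℝ) 3 → g x = x) →
  (∀ g ∈ G, ∀ h ∈ G, ∀ x, g x = x → h x = x → ∀ᶠ y in 𝓝 x, (g * h * g⁻¹ * h⁻¹) y = y) →
  ¬ ∃ f : FreeGroup (Fin 2) →* ↥G, Function.Injective f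

/-! ## The pair of diffeomorphisms -/

/-- left endpoint of the support of the `i`-th diffeomorphism: 0, 1 -/
def lo (i : Fin 2) : ℝ := (i : ℕ)
/-- right endpoint of the support of the `i`-th diffeomorphism: 2, 3 -/
def hi (i : Fin 2) : ℝ := (i : ℕ) + 2

/-- active sets, right version -/
def Dp (i : Fin 2) : Set ℝ := Ico (lo i) (hi i)
/-- active sets, left version -/
def Dm (i : Fin 2) : Set ℝ := Ioc (lo i) (hi i)
/-- active sets, open version -/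
def Do (i : Fin 2) : Set ℝ := Ioo (lo i) (hi i)

/-- The conditions on the pair without the genericity condition. -/
structure Pair0 (s : Fin 2 → Equiv.Perm ℝ) : Prop where
  mono : ∀ i, StrictMono (s i)
  smooth : ∀ i, ContDiff ℝ 2 (s i)
  smooth_symm : ∀ i, ContDiff ℝ 2 (s i).symm
  out : ∀ i x, x ∉ Ioo (lo i) (hi i) → s i x = x
  gt : ∀ i x, x ∈ Ioo (lo i) (hi i) → x < s i x
  an : ∀ i x, x ∈ Ioo (lo i) (hi i) → AnalyticAt ℝ (s i) x
  an_symm : ∀ i x, x ∈ Ioo (lo i) (hi i) → AnalyticAt ℝ (s i).symm x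
  disp : ∀ i x, s i x ≤ x + 1 / 100
  der : ∀ i x, |deriv (s i) x - 1| ≤ 1 / 100

/-- The conditions on the pair. -/
structure Pair (s : Fin 2 → Equiv.Perm ℝ) : Prop extends Pair0 s where
  genp : Gen s Dp
  genm : Gen s Dm

/-- (i) active sets are admissible -/
def S_OK : Prop := ∀ s : Fin 2 → Equiv.Perm ℝ, Pair0 s → Ok s Dp ∧ Ok s Dm ∧ Ok s Do

/-- (ii) one-sided local constancy of the cocycles -/
def S_RC : Prop := ∀ s : Fin 2 → Equiv.Perm ℝ, Pair0 s → ∀ (W : F2) (x : ℝ),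
  (∀ᶠ y in 𝓝[≥] x, coc s Dp W y = coc s Dp W x) ∧ (∀ᶠ y in 𝓝[≤] x, coc s Dm W y = coc s Dm W x)

/-- (iii) commutators of elements fixing a point are trivial near the point -/
def S_B : Prop := ∀ s : Fin 2 → Equiv.Perm ℝ, Pair s → ∀ (W W' : F2) (x : ℝ),
  rho s W x = x → rho s W' x = x → ∀ᶠ y in 𝓝 x, rho s (W * W' * W⁻¹ * W'⁻¹) y = y

/-- (iv) where the orbit avoids 0 and 1, the right cocycle is locally constant at values fixing
the point, and analytic -/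
def S_AN : Prop := ∀ s : Fin 2 → Equiv.Perm ℝ, Pair0 s → ∀ (d : F2) (l : ℝ),
  (∀ V : F2, rho s V l ≠ 0 ∧ rho s V l ≠ 1) → coc s Dp d l = d →
  AnalyticAt ℝ (rho s d) l ∧ ∀ᶠ y in 𝓝 l, coc s Dp d y = d

/-- (v) the right cocycle descends to the group generated by the pair -/
def S_F : Prop := ∀ s : Fin 2 → Equiv.Perm ℝ, Pair s → ∀ (W : F2), rho s W = 1 → ∀ x, coc s Dp W x = 1

/-- (vi) measure distortion, measurability of the cocycle -/
def S_MD : Prop := ∀ s : Fin 2 → Equiv.Perm ℝ, Pair0 s →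
  (∀ W v, MeasurableSet {x | coc s Dp W x = v}) ∧
  (∀ i (B : Set ℝ), MeasurableSet B → MeasurableSet (s i '' B)) ∧
  (∀ i (B : Set ℝ), MeasurableSet B → B ⊆ Ico (1:ℝ) 2 → |volume.real (s i '' B) - volume.real B| ≤ 1 / 50) ∧
  (∀ i, volume.real (symmDiff (s i '' Ico (1:ℝ) 2) (Ico (1:ℝ) 2)) ≤ 1 / 50)

/-! ## Existence of the pair -/

/-- entire function with coefficients `a n / n!` -/
noncomputable def PS (a : ℕ → ℝ) (x : ℝ) : ℝ := ∑' n, a n * ((n.factorial : ℝ)⁻¹ * x ^ n)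

/-- bump function positive exactly on `(lo i, hi i)` -/
noncomputable def bump (i : Fin 2) (x : ℝ) : ℝ := expNegInvGlue (x - lo i) * expNegInvGlue (hi i - x)

/-- the family of maps -/
noncomputable def fam (ε : ℝ) (i : Fin 2) (a : ℕ → ℝ) (x : ℝ) : ℝ :=
  x + ε * (bump i x * (40 + PS a x))

/-- parameter space -/
abbrev Om : Type := ℕ → Icc (-1:ℝ) 1

/-- the sequence of a parameter -/
def sq (a : Om) (n : ℕ) : ℝ := a n

/-- (vii.1) `PS a` is entire, with bounds -/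
def S_PS1 : Prop := ∀ a : ℕ → ℝ, (∀ n, |a n| ≤ 1) →
    (∀ x, AnalyticAt ℝ (PS a) x) ∧ (∀ x, |PS a x| ≤ Real.exp |x|) ∧ (∀ x, |deriv (PS a) x| ≤ Real.exp |x|)

/-- (vii.2) joint continuity -/
def S_PS2 : Prop := Continuous (fun z : Om × ℝ => PS (sq z.1) z.2)

/-- (vii.3) change of the first `k` coefficients -/
def S_PS3 : Prop := ∀ (a b : ℕ → ℝ) (k : ℕ) (t : Fin k → ℝ), (∀ n, |a n| ≤ 1) →
  (∀ j : Fin k, b j = a j + t j) → (∀ n, k ≤ n → b n = a n) →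
  ∀ x, PS b x = PS a x + ∑ j : Fin k, t j * (((j : ℕ).factorial : ℝ)⁻¹ * x ^ (j : ℕ))

/-- (vii.4) maps with derivative close to 1 are diffeomorphisms -/
def S_PM : Prop := ∀ f : ℝ → ℝ, ContDiff ℝ 2 f → (∀ x, |deriv f x - 1| ≤ 1 / 100) →
  ∃ e : Equiv.Perm ℝ, (∀ x, e x = f x) ∧ StrictMono e ∧ ContDiff ℝ 2 e.symm ∧
    ∀ x, AnalyticAt ℝ f x → AnalyticAt ℝ e.symm (f x)

/-- (viii) the maps are diffeomorphisms close to the identity -/
def S_SM : Prop := ∃ ε : ℝ, 0 < ε ∧ ∀ a b : Om, ∃ s : Fin 2 → Equiv.Perm ℝ,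
  Pair0 s ∧ (∀ x, s 0 x = fam ε 0 (sq a) x) ∧ (∀ x, s 1 x = fam ε 1 (sq b) x)

/-- (ix) the finite dimensional lemma -/
def S_FD : Prop := ∀ (k : ℕ) (w : ℕ → ℝ), (∀ j, w j ≠ 0) → ∀ (C S T : Finset (Fin k)),
  k < C.card + S.card + T.card → ∀ (v : Fin k → ℝ) (O : Set (Fin k → ℝ)), IsOpen O →
  (∀ X ∈ O, Function.Injective X) → ∀ g g' : Fin k → (Fin k → ℝ) → ℝ,
  (∀ i ∈ S, ContDiffOn ℝ 1 (g i) O) → (∀ i ∈ T, ContDiffOn ℝ 1 (g' i) O) →
  Dense {t : (Fin k → ℝ) × (Fin k → ℝ) | ∃ X ∈ O, (∀ i ∈ C, X i = v i) ∧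
    (∀ i ∈ S, ∑ j : Fin k, t.1 j * (w j * X i ^ (j : ℕ)) = g i X) ∧
    (∀ i ∈ T, ∑ j : Fin k, t.2 j * (w j * X i ^ (j : ℕ)) = g' i X)}ᶜ

/-- genericity of a pair of maps: bound for the number of relations -/
def Good (p q : ℝ → ℝ) : Prop := ∀ (k : ℕ) (X : Fin k → ℝ), Function.Injective X →
  ∀ (C S T : Finset (Fin k)) (σ τ : Fin k → Fin k), (∀ i ∈ C, X i = 1 ∨ X i = 2) →
  (∀ i, X i ∈ Ioo (0:ℝ) 3) → (∀ i ∈ S, X i ∈ Ioo (0:ℝ) 2 ∧ p (X i) = X (σ i)) →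
  (∀ i ∈ T, X i ∈ Ioo (1:ℝ) 3 ∧ q (X i) = X (τ i)) → C.card + S.card + T.card ≤ k

/-- (x) generic parameters -/
def S_GEN : Prop := ∀ ε : ℝ, 0 < ε → ∃ a b : Om, Good (fam ε 0 (sq a)) (fam ε 1 (sq b))

/-- (xi) genericity implies the two graph conditions -/
def S_GT : Prop := ∀ s : Fin 2 → Equiv.Perm ℝ, Pair0 s → Good (s 0) (s 1) → Gen s Dp ∧ Gen s Dm

/-- existence of the pair -/
def S_EX : Prop := ∃ s, Pair s

end Pool.Agent.Y329.CG
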