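import Pool.Agent.Y329.CG.Asm

set_option autoImplicit false

open Set Filter Topology MeasureTheory

namespace Pool.Agent.Y329.CG

section
variable {s : Fin 2 → Equiv.Perm ℝ}

theorem act_do (h : Pair0 s) : ∀ {L : List (Fin 2 × Bool)} {l : ℝ}, Act s Do L l →
    AnalyticAt ℝ (rho s (FreeGroup.mk L)) l ∧ ∀ᶠ y in 𝓝 l, Act s Do L y
  | [], l, _ => by
    have e : (FreeGroup.mk [] : F2) = 1 := rfl
    rw [e, map_one]
    exact ⟨analyticAt_id, Eventually.of_forall fun y => trivial⟩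
  | a :: L, l, hL => by
    obtain ⟨h1, h2⟩ := act_do h hL.1
    refine ⟨?_, ?_⟩
    · rw [mk_cons, map_mul]
      have h3 : AnalyticAt ℝ (rho s (ltr a)) (rho s (FreeGroup.mk L) l) := by
        obtain ⟨i, b⟩ := a
        cases b with
        | true => rw [ltr_true, rho_of]; exact h.an i _ hL.2
        | false => rw [ltr_false, map_inv, rho_of]; exact h.an_symm i _ hL.2
      exact h3.comp h1
    · have h3 : ∀ᶠ y in 𝓝 l, rho s (FreeGroup.mk L) y ∈ Do a.1 :=
        h1.continuousAt.eventually (isOpen_Ioo.mem_nhds hL.2)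
      filter_upwards [h2, h3] with y hy1 hy2
      exact ⟨hy1, hy2⟩

theorem act_mono {D D' : Fin 2 → Set ℝ} : ∀ {L : List (Fin 2 × Bool)} {l : ℝ},
    (∀ (V : F2) i, rho s V l ∈ D i → rho s V l ∈ D' i) → Act s D L l → Act s D' L l
  | [], _, _, _ => trivial
  | _ :: _, _, h, hL => ⟨act_mono h hL.1, h _ _ hL.2⟩

end

theorem an_proof : S_AN := by
  intro s hs d l hV hd
  obtain ⟨hp, -, -⟩ := ok_proof s hs
  obtain ⟨L, h1, h2, h3⟩ := hp.exists_act d l
  rw [hd] at h1
  have h4 : Act s Do L l := by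
    refine act_mono ?_ h2
    intro V i hi
    refine ⟨lt_of_le_of_ne hi.1 ?_, hi.2⟩
    intro he
    fin_cases i
    · exact (hV V).1 (by rw [← he]; simp [lo])
    · exact (hV V).2 (by rw [← he]; simp [lo])
  obtain ⟨h5, h6⟩ := act_do hs h4
  rw [h1] at h5
  refine ⟨h5, ?_⟩
  filter_upwards [h6] with y hy
  have h7 : Act s Dp L y := act_mono (fun V i hi => ⟨hi.1.le, hi.2⟩) hy
  have := hp.coc_of_act h7
  rwa [h1] at this

end Pool.Agent.Y329.CG
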