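import Pool.Agent.Y329.CG.OK

set_option autoImplicit false

open Set Filter Topology MeasureTheory

namespace Pool.Agent.Y329.CG

theorem ex_of (hSM : S_SM) (hGEN : S_GEN) (hGT : S_GT) : S_EX := by
  obtain ⟨ε, hε, h⟩ := hSM
  obtain ⟨a, b, hab⟩ := hGEN ε hε
  obtain ⟨s, hs, h0, h1⟩ := h a b
  have e0 : (s 0 : ℝ → ℝ) = fam ε 0 (sq a) := funext h0
  have e1 : (s 1 : ℝ → ℝ) = fam ε 1 (sq b) := funext h1
  have hg : Good (s 0) (s 1) := by rw [e0, e1]; exact hab
  obtain ⟨hp, hm⟩ := hGT s hs hg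
  exact ⟨s, hs, hp, hm⟩

section
variable {s : Fin 2 → Equiv.Perm ℝ}

theorem Pair0.rho_mono (h : Pair0 s) (W : F2) : StrictMono (rho s W) ∧ ContDiff ℝ 2 (rho s W) ∧
    ContDiff ℝ 2 (rho s W).symm := by
  induction W using FreeGroup.induction_on with
  | C1 =>
    rw [map_one]
    exact ⟨strictMono_id, contDiff_id, contDiff_id⟩
  | of i =>
    rw [rho_of]
    exact ⟨h.mono i, h.smooth i, h.smooth_symm i⟩
  | inv_of i _ =>
    have e : rho s (FreeGroup.of i)⁻¹ = (s i).symm := by rw [map_inv, rho_of]; rfl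
    rw [e, Equiv.symm_symm]
    refine ⟨?_, h.smooth_symm i, h.smooth i⟩
    intro x y hxy
    rw [← (h.mono i).lt_iff_lt]
    simpa using hxy
  | mul a b ha hb =>
    rw [map_mul]
    exact ⟨ha.1.comp hb.1, ha.2.1.comp hb.2.1, hb.2.2.comp ha.2.2⟩

theorem Pair0.rho_out (h : Pair0 s) (W : F2) {x : ℝ} (hx : x ∉ Ioo (0:ℝ) 3) : rho s W x = x := by
  have h1 : ∀ i, s i x = x := by
    intro i
    apply h.out i x
    intro hx2
    apply hx
    fin_cases i
    · simp [lo, hi] at hx2 ⊢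
      exact ⟨hx2.1, by linarith [hx2.2]⟩
    · simp [lo, hi] at hx2 ⊢
      exact ⟨by linarith [hx2.1], by linarith [hx2.2]⟩
  induction W using FreeGroup.induction_on with
  | C1 => rw [map_one]; rfl
  | of i =>
    rw [rho_of]; exact h1 i
  | inv_of i _ =>
    rw [map_inv, rho_of]
    exact (Equiv.symm_apply_eq _).2 (h1 i).symm
  | mul a b ha hb =>
    rw [map_mul, Equiv.Perm.mul_apply, hb, ha]

end

/-- the main theorem from the pieces -/
theorem main_of (hEX : S_EX) (hB : S_B) (hF : S_F) (hMD : S_MD) (hNA : S_NA) (hNF : S_NF) :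
    ∃ H : Subgroup (Equiv.Perm ℝ),
      (∀ g ∈ H, StrictMono ⇑g ∧ ContDiff ℝ 2 ⇑g ∧ ContDiff ℝ 2 ⇑(g.symm)) ∧
      (¬ ∃ m : Set ↥H → ℝ,
          (∀ A : Set ↥H, 0 ≤ m A) ∧
          m Set.univ = 1 ∧
          (∀ A B : Set ↥H, Disjoint A B → m (A ∪ B) = m A + m B) ∧
          (∀ (g : ↥H) (A : Set ↥H), m ((fun x => g * x) ⁻¹' A) = m A)) ∧
      (¬ ∃ f : FreeGroup (Fin 2) →* ↥H, Function.Injective f) := by
  obtain ⟨s, hs⟩ := hEX
  have h0 : Pair0 s := hs.toPair0
  refine ⟨(rho s).range, ?_, ?_, ?_⟩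
  · rintro g ⟨W, rfl⟩
    exact h0.rho_mono W
  · have hsec : ∀ g : (rho s).range, ∃ W : F2, rho s W = g := fun g => g.2
    choose τ hτ using hsec
    have key : ∀ W W' : F2, rho s W = rho s W' → ∀ x, coc s Dp W x = coc s Dp W' x := by
      intro W W' h x
      have h1 : rho s (W⁻¹ * W') = 1 := by rw [map_mul, map_inv, h, inv_mul_cancel]
      have h2 := hF s hs _ h1 x
      rw [coc_mul, coc_inv, ← h, ← rho_mul_apply, inv_mul_cancel, map_one] at h2
      exact (inv_mul_eq_one.1 h2)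
    obtain ⟨m1, m2, m3, m4⟩ := hMD s h0
    let gen : Fin 2 → (rho s).range := fun i => ⟨s i, FreeGroup.of i, rho_of s i⟩
    apply hNA (rho s).range (Subgroup.subtype _) (fun g x => coc s Dp (τ g) x) gen
    · intro g g' x
      have e : rho s (τ (g * g')) = rho s (τ g * τ g') := by
        rw [hτ, map_mul, hτ, hτ]; rfl
      have := key _ _ e x
      rw [this, coc_mul, hτ]; rfl
    · intro g v
      exact m1 _ _
    · intro i x hx
      have e : rho s (τ (gen i)) = rho s (FreeGroup.of i) := by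
        rw [hτ, rho_of]
      show coc s Dp (τ (gen i)) x = _
      rw [key _ _ e x]
      apply coc_of_mem
      fin_cases i
      · simp [Dp, lo, hi] at hx ⊢
        exact ⟨by linarith [hx.1], hx.2⟩
      · simp [Dp, lo, hi] at hx ⊢
        exact ⟨hx.1, by linarith [hx.2]⟩
    · intro i B hB
      exact m2 i B hB
    · intro i B hB hB2
      exact m3 i B hB hB2
    · intro i
      exact m4 i
  · apply hNF
    · rintro g ⟨W, rfl⟩
      exact (h0.rho_mono W).1
    · rintro g ⟨W, rfl⟩ x hx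
      exact h0.rho_out W hx
    · rintro g ⟨W, rfl⟩ h ⟨W', rfl⟩ x h1 h2
      have := hB s hs W W' x h1 h2
      simpa only [map_mul, map_inv] using this

end Pool.Agent.Y329.CG
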