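import Mathlib

/-!
Project CG: cocycles of a pair of permutations with active sets.
-/

set_option autoImplicit false

namespace Pool.Agent.Y329.CG

abbrev F2 := FreeGroup (Fin 2)

section
variable {X : Type} (s : Fin 2 → Equiv.Perm X) (D : Fin 2 → Set X)

/-- the action of the free group -/
noncomputable def rho : F2 →* Equiv.Perm X := FreeGroup.lift s

@[simp] theorem rho_of (i : Fin 2) : rho s (FreeGroup.of i) = s i := by
  simp [rho]

open Classical in
/-- extension of the permutation `s i` to `X × F2` by the letter `of i` on the active set `D i` -/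
noncomputable def extp (i : Fin 2) : Equiv.Perm (X × F2) where
  toFun z := (s i z.1, (if z.1 ∈ D i then FreeGroup.of i else 1) * z.2)
  invFun z := ((s i).symm z.1, (if (s i).symm z.1 ∈ D i then (FreeGroup.of i)⁻¹ else 1) * z.2)
  left_inv z := by
    by_cases h : z.1 ∈ D i <;> simp [h]
  right_inv z := by
    by_cases h : (s i).symm z.1 ∈ D i <;> simp [h]

/-- the cocycle of the pair `s` with active sets `D` -/
noncomputable def coc (W : F2) (x : X) : F2 := (FreeGroup.lift (extp s D) W (x, 1)).2

theorem lift_extp (W : F2) : ∀ (x : X) (v : F2),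
    FreeGroup.lift (extp s D) W (x, v) = (rho s W x, coc s D W x * v) := by
  have key : ∀ (x : X) (v : F2), (FreeGroup.lift (extp s D) W (x, v)).1 = rho s W x ∧
      (FreeGroup.lift (extp s D) W (x, v)).2 = (FreeGroup.lift (extp s D) W (x, 1)).2 * v := by
    induction W using FreeGroup.induction_on with
    | C1 => intro x v; simp
    | of i => intro x v; simp [extp]
    | inv_of i _ =>
      intro x v
      have e : FreeGroup.lift (extp s D) (FreeGroup.of i)⁻¹ = (extp s D i).symm := by
        rw [map_inv]; simp [Equiv.Perm.inv_def]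
      have e2 : rho s (FreeGroup.of i)⁻¹ = (s i).symm := by
        rw [map_inv]; simp [Equiv.Perm.inv_def]
      rw [e, e2]
      simp [extp]
    | mul a b ha hb =>
      intro x v
      simp only [map_mul, Equiv.Perm.mul_apply]
      have h1 := hb x v
      have h2 := hb x 1
      have e1 : FreeGroup.lift (extp s D) b (x, v) = (rho s b x, (FreeGroup.lift (extp s D) b (x, 1)).2 * v) :=
        Prod.ext h1.1 h1.2
      have e2 : FreeGroup.lift (extp s D) b (x, 1) = (rho s b x, (FreeGroup.lift (extp s D) b (x, 1)).2) :=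
        Prod.ext h2.1 rfl
      rw [e1]
      constructor
      · exact (ha _ _).1
      · rw [e2, (ha _ (_ * v)).2, (ha (rho s b x) (FreeGroup.lift (extp s D) b (x, 1)).2).2, mul_assoc]
  intro x v
  exact Prod.ext (key x v).1 (key x v).2

theorem coc_mul (W W' : F2) (x : X) :
    coc s D (W * W') x = coc s D W (rho s W' x) * coc s D W' x := by
  have h := lift_extp s D (W * W') x 1
  rw [map_mul, Equiv.Perm.mul_apply, lift_extp, lift_extp] at h
  have := congrArg Prod.snd h
  simpa using this.symm

@[simp] theorem coc_one (x : X) : coc s D 1 x = 1 := by simp [coc]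

open Classical in
theorem coc_of (i : Fin 2) (x : X) :
    coc s D (FreeGroup.of i) x = if x ∈ D i then FreeGroup.of i else 1 := by
  simp [coc, extp]

theorem coc_of_mem {i : Fin 2} {x : X} (h : x ∈ D i) : coc s D (FreeGroup.of i) x = FreeGroup.of i := by
  rw [coc_of, if_pos h]

theorem coc_of_notMem {i : Fin 2} {x : X} (h : x ∉ D i) : coc s D (FreeGroup.of i) x = 1 := by
  rw [coc_of, if_neg h]

theorem coc_inv (W : F2) (x : X) : coc s D W⁻¹ x = (coc s D W (rho s W⁻¹ x))⁻¹ := by
  have h := coc_mul s D W W⁻¹ x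
  rw [mul_inv_cancel, coc_one] at h
  exact eq_inv_of_mul_eq_one_right h.symm

theorem rho_inv_apply (W : F2) (x : X) : rho s W⁻¹ (rho s W x) = x := by
  rw [← Equiv.Perm.mul_apply, ← map_mul]; simp

theorem rho_apply_inv (W : F2) (x : X) : rho s W (rho s W⁻¹ x) = x := by
  rw [← Equiv.Perm.mul_apply, ← map_mul]; simp

theorem rho_mul_apply (W W' : F2) (x : X) : rho s (W * W') x = rho s W (rho s W' x) := by
  rw [map_mul, Equiv.Perm.mul_apply]

/-- The letter `(i, b)` is `of i` if `b` and its inverse otherwise (as in `FreeGroup.mk [(i, b)]`). -/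
def ltr (l : Fin 2 × Bool) : F2 := FreeGroup.mk [l]

theorem ltr_true (i : Fin 2) : ltr (i, true) = FreeGroup.of i := rfl
theorem ltr_false (i : Fin 2) : ltr (i, false) = (FreeGroup.of i)⁻¹ := by
  simp [ltr, FreeGroup.of, FreeGroup.inv_mk, FreeGroup.invRev]

theorem mk_cons (l : Fin 2 × Bool) (L : List (Fin 2 × Bool)) :
    FreeGroup.mk (l :: L) = ltr l * FreeGroup.mk L := by
  simp [ltr, FreeGroup.mul_mk]

/-- hypotheses on the active sets: `D i` is invariant under `s i` and `s i` is the identity off `D i` -/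
structure Ok : Prop where
  inv : ∀ i x, s i x ∈ D i ↔ x ∈ D i
  out : ∀ i x, x ∉ D i → s i x = x

variable {s D}

theorem Ok.symm_mem (h : Ok s D) {i : Fin 2} {x : X} : (s i).symm x ∈ D i ↔ x ∈ D i := by
  have := h.inv i ((s i).symm x)
  rw [Equiv.apply_symm_apply] at this
  exact this.symm

theorem Ok.symm_out (h : Ok s D) {i : Fin 2} {x : X} (hx : x ∉ D i) : (s i).symm x = x := by
  rw [Equiv.symm_apply_eq]; exact (h.out i x hx).symm

theorem Ok.rho_ltr_mem (h : Ok s D) (l : Fin 2 × Bool) (x : X) :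
    rho s (ltr l) x ∈ D l.1 ↔ x ∈ D l.1 := by
  obtain ⟨i, b⟩ := l
  cases b with
  | true => rw [ltr_true, rho_of]; exact h.inv i x
  | false => rw [ltr_false, map_inv, rho_of]; exact h.symm_mem

theorem Ok.rho_ltr_out (h : Ok s D) (l : Fin 2 × Bool) {x : X} (hx : x ∉ D l.1) :
    rho s (ltr l) x = x := by
  obtain ⟨i, b⟩ := l
  cases b with
  | true => rw [ltr_true, rho_of]; exact h.out i x hx
  | false => rw [ltr_false, map_inv, rho_of]; exact h.symm_out hx

open Classical in
theorem Ok.coc_ltr (h : Ok s D) (l : Fin 2 × Bool) (x : X) :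
    coc s D (ltr l) x = if x ∈ D l.1 then ltr l else 1 := by
  obtain ⟨i, b⟩ := l
  cases b with
  | true => rw [ltr_true, coc_of]
  | false =>
    have e : rho s (FreeGroup.of i)⁻¹ x = (s i).symm x := by rw [map_inv, rho_of]; rfl
    rw [ltr_false, coc_inv, coc_of, e]
    by_cases hx : x ∈ D i
    · rw [if_pos hx, if_pos (h.symm_mem.2 hx)]
    · rw [if_neg hx, if_neg (fun h' => hx (h.symm_mem.1 h')), inv_one]

variable (s D)

/-- every step of the word `L` (read from the right) starting at `x` is active -/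
def Act : List (Fin 2 × Bool) → X → Prop
  | [], _ => True
  | l :: L, x => Act L x ∧ rho s (FreeGroup.mk L) x ∈ D l.1

variable {s D}

theorem Ok.coc_of_act (h : Ok s D) : ∀ {L : List (Fin 2 × Bool)} {x : X}, Act s D L x →
    coc s D (FreeGroup.mk L) x = FreeGroup.mk L
  | [], x, _ => by
    have : (FreeGroup.mk [] : F2) = 1 := rfl
    rw [this, coc_one]
  | l :: L, x, hL => by
    rw [mk_cons, coc_mul, h.coc_of_act hL.1, h.coc_ltr, if_pos hL.2]

/-- every value of the cocycle is represented by an active word, which acts in the same way -/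
theorem Ok.exists_act (h : Ok s D) (W : F2) (x : X) :
    ∃ L, FreeGroup.mk L = coc s D W x ∧ Act s D L x ∧ rho s (FreeGroup.mk L) x = rho s W x := by
  obtain ⟨L0, rfl⟩ : ∃ L0, FreeGroup.mk L0 = W := ⟨W.toWord, FreeGroup.mk_toWord⟩
  induction L0 with
  | nil =>
    refine ⟨[], ?_, trivial, rfl⟩
    have : (FreeGroup.mk [] : F2) = 1 := rfl
    rw [this, coc_one]
  | cons l L0 ih =>
    obtain ⟨L, h1, h2, h3⟩ := ih
    rw [mk_cons, coc_mul, rho_mul_apply, h.coc_ltr]
    by_cases hx : rho s (FreeGroup.mk L0) x ∈ D l.1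
    · refine ⟨l :: L, ?_, ⟨h2, ?_⟩, ?_⟩
      · rw [if_pos hx, mk_cons, h1]
      · rw [h3]; exact hx
      · rw [mk_cons, rho_mul_apply, h3]
    · refine ⟨L, ?_, h2, ?_⟩
      · rw [if_neg hx, one_mul, h1]
      · rw [h3, h.rho_ltr_out l hx]

theorem Ok.rho_coc (h : Ok s D) (W : F2) (x : X) : rho s (coc s D W x) x = rho s W x := by
  obtain ⟨L, h1, _, h3⟩ := h.exists_act W x
  rw [← h1, h3]

theorem Ok.coc_coc (h : Ok s D) (W : F2) (x : X) : coc s D (coc s D W x) x = coc s D W x := by
  obtain ⟨L, h1, h2, _⟩ := h.exists_act W x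
  rw [← h1]; exact h.coc_of_act h2

end

end Pool.Agent.Y329.CG
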